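import Pool.Agent.H95.CM.Targets

/-!
# The row C_TWS: sums over the vectors of a product of ideals are sums over the ideals of a class
-/

set_option autoImplicit false

open MeasureTheory Set Filter NumberField
open scoped Real nonZeroDivisors

namespace Pool.Agent.H56.CM4

open Pool.Agent.H65.CM4
open Pool.Agent.H95.CM
open Pool.Agent.H31.CN (IsLf)
open Pool.Agent.H61.FM (CC pv)

open Classical in
/-- sums over a set and sums over its image under a map all of whose fibres have `w` elements -/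
theorem hasSum_fib {κ ι : Type*} (A : Set κ) (B : Set ι) (j : κ → ι) (w : ℕ) (hw : 0 < w)
    (hj : ∀ v ∈ A, j v ∈ B) (hfib : ∀ J ∈ B, {v | v ∈ A ∧ j v = J}.ncard = w)
    (g : κ → ℂ) (f : ι → ℂ) (hgf : ∀ v ∈ A, g v = f (j v)) (a : ℂ)
    (h : HasSum (fun v => if v ∈ A then g v else 0) a) :
    HasSum (fun J => if J ∈ B then f J else 0) (a / w) := by
  have hV : HasSum (fun v : A => g v) a := by
    have h4 := (hasSum_subtype_iff_indicator (f := g) (s := A) (a := a)).mpr (by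
      refine h.congr_fun ?_
      intro v
      by_cases hv : v ∈ A
      · simp [hv]
      · simp [hv])
    exact h4
  set β : A → B := fun v => ⟨j v, hj v v.2⟩ with hβ
  have hS := (Equiv.sigmaFiberEquiv β).hasSum_iff.mpr hV
  have hF : ∀ J : B, HasSum (fun v : {v : A // β v = J} => g v.1.1) (w * f J) := by
    intro J
    have hc := hfib J.1 J.2
    have hfin : {v | v ∈ A ∧ j v = J.1}.Finite := Set.finite_of_ncard_pos (by rw [hc]; exact hw)
    let e : {v : A // β v = J} ≃ {v | v ∈ A ∧ j v = J.1} :=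
      { toFun := fun v => ⟨v.1.1, v.1.2, congrArg Subtype.val v.2⟩
        invFun := fun v => ⟨⟨v.1, v.2.1⟩, Subtype.ext v.2.2⟩
        left_inv := fun v => rfl
        right_inv := fun v => rfl }
    have hfin' : Finite {v : A // β v = J} := by
      have := hfin.to_subtype
      exact Finite.of_equiv _ e.symm
    have hft : Fintype {v : A // β v = J} := Fintype.ofFinite _
    have h1 : (fun v : {v : A // β v = J} => g v.1.1) = fun _ => f J := by
      funext v
      rw [hgf v.1.1 v.1.2]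
      exact congrArg f (congrArg Subtype.val v.2)
    rw [h1]
    have h2 := hasSum_fintype (fun _ : {v : A // β v = J} => f J)
    have h3 : ∑ _v : {v : A // β v = J}, f J = w * f J := by
      rw [Finset.sum_const, Finset.card_univ, nsmul_eq_mul]
      congr 2
      rw [← Nat.card_eq_fintype_card, Nat.card_congr e, Nat.card_coe_set_eq, hc]
    rw [h3] at h2
    exact h2
  have hT : HasSum (fun J : B => (w : ℂ) * f J) a := hS.sigma hF
  have hw' : (w : ℂ) ≠ 0 := Nat.cast_ne_zero.mpr hw.ne'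
  have hU : HasSum (fun J : B => f J) (a / w) := by
    have h5 := hT.div_const (w : ℂ)
    refine h5.congr_fun ?_
    intro J
    rw [mul_comm, mul_div_assoc, div_self hw', mul_one]
  have h6 := (hasSum_subtype_iff_indicator (f := f) (s := B) (a := a / w)).mp hU
  refine h6.congr_fun ?_
  intro J
  by_cases hJ : J ∈ B
  · simp [hJ]
  · simp [hJ]

theorem pf_TWS (hVIG : T_VIG) (hUNI : T_UNI) : T_TWS := by
  classical
  intro k K _ _ _ _ _ _ _ _ b I P α β μ M Q hb hOB f a h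
  obtain ⟨b', hb1, hb2, hb3, hb4⟩ := hVIG k K b I α β μ M Q hb hOB
  have hun : 0 < un k K := hUNI k K
  set A : Set (V2 k) := {v | v ∈ lt α β ((P : Ideal (𝓞 K)) * I) ∧ v ∈ Fo k} with hA
  set B : Set (Ideal (𝓞 K))⁰ :=
    {J | ClassGroup.mk0 J = (ClassGroup.mk0 I * ClassGroup.mk0 P)⁻¹} with hB
  have hI0 : (I : Ideal (𝓞 K)) ≠ 0 := nonZeroDivisors.coe_ne_zero I
  have hP0 : (P : Ideal (𝓞 K)) ≠ 0 := nonZeroDivisors.coe_ne_zero P
  have hM : ∀ v : V2 k, v ∈ M ↔ ∃ x ∈ (I : Ideal (𝓞 K)), (x : K) = lin α β v := by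
    intro v
    rw [hOB.lat]
    exact Iff.rfl
  have hL : ∀ v : V2 k, v ∈ lt α β ((P : Ideal (𝓞 K)) * I) ↔
      ∃ x ∈ (P : Ideal (𝓞 K)) * I, (x : K) = lin α β v := fun v => Iff.rfl
  have hLM : ∀ v : V2 k, v ∈ lt α β ((P : Ideal (𝓞 K)) * I) → v ∈ M := by
    intro v hv
    obtain ⟨x, hx, ex⟩ := (hL v).1 hv
    exact (hM v).2 ⟨x, Ideal.mul_le_right hx, ex⟩
  have hF0 : ∀ v : V2 k, v ∈ Fo k → v ≠ 0 := fun v hv => hv.1
  -- membership
  have hmem : ∀ v : V2 k, v ∈ M → v ≠ 0 → (v ∈ lt α β ((P : Ideal (𝓞 K)) * I) ↔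
      (P : Ideal (𝓞 K)) ∣ (b' v : Ideal (𝓞 K))) := by
    intro v hvM hv
    obtain ⟨x, hx, ex⟩ := (hM v).1 hvM
    have h1 : v ∈ lt α β ((P : Ideal (𝓞 K)) * I) ↔ x ∈ (P : Ideal (𝓞 K)) * I := by
      rw [hL]
      constructor
      · rintro ⟨y, hy, ey⟩
        have : y = x := RingOfIntegers.ext (ey.trans ex.symm)
        rwa [this] at hy
      · intro hy
        exact ⟨x, hy, ex⟩
    rw [h1, ← Ideal.dvd_span_singleton, hb1 v hvM hv x ex, mul_dvd_mul_iff_right hI0]
  have hex : ∀ v : V2 k, ∃ J : (Ideal (𝓞 K))⁰, v ∈ A → b' v = P * J := by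
    intro v
    by_cases hv : v ∈ A
    · obtain ⟨J, hJ⟩ := (hmem v (hLM v hv.1) (hF0 v hv.2)).mp hv.1
      have hJ0 : J ≠ 0 := by
        rintro rfl
        rw [mul_zero] at hJ
        exact nonZeroDivisors.coe_ne_zero (b' v) hJ
      refine ⟨⟨J, mem_nonZeroDivisors_of_ne_zero hJ0⟩, fun _ => Subtype.ext hJ⟩
    · exact ⟨1, fun h => absurd h hv⟩
  choose j hj using hex
  have hcl : ∀ J : (Ideal (𝓞 K))⁰, J ∈ B ↔ ClassGroup.mk0 (P * J) = (ClassGroup.mk0 I)⁻¹ := by
    intro J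
    rw [hB, Set.mem_ofPred_eq, map_mul, mul_inv, ← eq_inv_mul_iff_mul_eq, mul_comm]
  have hjB : ∀ v ∈ A, j v ∈ B := by
    intro v hv
    rw [hcl, ← hj v hv]
    exact (hb2 v (hLM v hv.1) (hF0 v hv.2)).1
  have hfib : ∀ J ∈ B, {v | v ∈ A ∧ j v = J}.ncard = un k K := by
    intro J hJ
    obtain ⟨v, hvM, hv, hbv⟩ := hb3 (P * J) ((hcl J).mp hJ)
    rw [← hb4 v hvM hv]
    congr 1
    ext v'
    constructor
    · rintro ⟨hv', hjv'⟩
      refine ⟨hLM v' hv'.1, hv'.2, ?_⟩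
      rw [hj v' hv', hjv', hbv]
    · rintro ⟨hvM', hv', hbv'⟩
      have h2 : b' v' = P * J := hbv'.trans hbv
      have h3 : v' ∈ A := by
        refine ⟨(hmem v' hvM' (hF0 v' hv')).mpr ?_, hv'⟩
        rw [h2]
        exact ⟨J, rfl⟩
      refine ⟨h3, ?_⟩
      have h4 := (hj v' h3).symm.trans h2
      have h5 : (P : Ideal (𝓞 K)) * (j v' : Ideal (𝓞 K)) = P * (J : Ideal (𝓞 K)) :=
        congrArg Subtype.val h4
      exact Subtype.ext (mul_left_cancel₀ hP0 h5)
  have hnm : ∀ J J' : (Ideal (𝓞 K))⁰, nm ((J * J' : (Ideal (𝓞 K))⁰) : Ideal (𝓞 K)) =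
      nm (J : Ideal (𝓞 K)) * nm (J' : Ideal (𝓞 K)) := by
    intro J J'
    unfold nm
    rw [Submonoid.coe_mul, map_mul, Nat.cast_mul]
  have hnP : nm (P : Ideal (𝓞 K)) ≠ 0 := by
    unfold nm
    rw [Nat.cast_ne_zero, Ne, Ideal.absNorm_eq_zero_iff]
    exact hP0
  have hgf : ∀ v ∈ A, (fun u : V2 k => f (Real.sqrt (Dr k K) *
      (∏ v : Pl k, rv v (val Q u : k) / Real.sqrt (rv v (dsc Q : k))) /
          (ix M * nm (P : Ideal (𝓞 K))))) v =
      (fun J : (Ideal (𝓞 K))⁰ => f (nm (J : Ideal (𝓞 K)))) (j v) := by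
    intro v hv
    have h2 := (hb2 v (hLM v hv.1) (hF0 v hv.2)).2
    rw [hj v hv, hnm] at h2
    simp only []
    congr 1
    rw [div_mul_eq_div_div, ← h2, mul_div_cancel_left₀ _ hnP]
  have hfin := hasSum_fib A B j (un k K) hun hjB hfib (fun u : V2 k => f (Real.sqrt (Dr k K) *
      (∏ v : Pl k, rv v (val Q u : k) / Real.sqrt (rv v (dsc Q : k))) /
          (ix M * nm (P : Ideal (𝓞 K)))))
    (fun J => f (nm (J : Ideal (𝓞 K)))) hgf a (h.congr_fun (by
      intro v
      by_cases hv : v ∈ A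
      · rw [if_pos hv]
        exact (if_pos hv).symm
      · rw [if_neg hv]
        exact (if_neg hv).symm))
  refine hfin.congr_fun ?_
  intro J
  by_cases hJ : J ∈ B
  · rw [if_pos hJ]
    exact (if_pos hJ)
  · rw [if_neg hJ]
    exact (if_neg hJ)

end Pool.Agent.H56.CM4
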